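import Mathlib

set_option autoImplicit false

/-!
# A colouring of the plane with seven colours and a margin
-/

namespace Pool.Agent.Lib_helper58.Slab

/-- Every point is close to a point of the triangular lattice. -/
lemma exists_near (a b : ℝ) : ∃ i j : ℤ, (a - i) ^ 2 + (a - i) * (b - j) + (b - j) ^ 2 ≤ 1 / 3 := by
  set u := Int.fract a with hu
  set t := Int.fract b with ht
  have hu0 : 0 ≤ u := Int.fract_nonneg a
  have hu1 : u < 1 := Int.fract_lt_one a
  have ht0 : 0 ≤ t := Int.fract_nonneg b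
  have ht1 : t < 1 := Int.fract_lt_one b
  have ha : a = ⌊a⌋ + u := (Int.floor_add_fract a).symm
  have hb : b = ⌊b⌋ + t := (Int.floor_add_fract b).symm
  have h10 : (a - (⌊a⌋ + 1 : ℤ)) = u - 1 := by push_cast; linarith
  have h00 : (a - (⌊a⌋ : ℤ)) = u := by linarith
  have k10 : (b - (⌊b⌋ + 1 : ℤ)) = t - 1 := by push_cast; linarith
  have k00 : (b - (⌊b⌋ : ℤ)) = t := by linarith
  by_contra hcon
  push Not at hcon
  have e1 := hcon (⌊a⌋ + 1) ⌊b⌋
  have e2 := hcon ⌊a⌋ (⌊b⌋ + 1)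
  have e3 := hcon ⌊a⌋ ⌊b⌋
  have e4 := hcon (⌊a⌋ + 1) (⌊b⌋ + 1)
  rw [h10, k00] at e1
  rw [h00, k10] at e2
  rw [h00, k00] at e3
  rw [h10, k10] at e4
  rcases le_or_gt (u + t) 1 with h | h
  · nlinarith [mul_nonneg hu0 (sub_nonneg.2 e1.le), mul_nonneg ht0 (sub_nonneg.2 e2.le),
      mul_nonneg (sub_nonneg.2 h) (sub_nonneg.2 e3.le), sq_nonneg (u - t), sq_nonneg (u + t - 2/3)]
  · nlinarith [mul_nonneg (sub_nonneg.2 hu1.le) (sub_nonneg.2 e2.le),
      mul_nonneg (sub_nonneg.2 ht1.le) (sub_nonneg.2 e1.le),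
      mul_nonneg (sub_nonneg.2 h.le) (sub_nonneg.2 e4.le), sq_nonneg (u - t),
      sq_nonneg (u + t - 4/3)]

/-- Nonzero elements of the sublattice have norm at least `7`. -/
lemma norm_ge_seven (i j : ℤ) (h : (7 : ℤ) ∣ i - 2 * j) (h0 : ¬ (i = 0 ∧ j = 0)) :
    7 ≤ i ^ 2 + i * j + j ^ 2 := by
  obtain ⟨m, hm⟩ := h
  have h1 : i = 7 * m + 2 * j := by linarith
  have h2 : (7 : ℤ) ∣ i ^ 2 + i * j + j ^ 2 := by
    refine ⟨7 * m ^ 2 + 5 * m * j + j ^ 2, ?_⟩
    rw [h1]; ring
  have h3 : 0 < i ^ 2 + i * j + j ^ 2 := by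
    by_contra hcon
    push Not at hcon
    apply h0
    have hj : j = 0 := by
      by_contra hj
      have : 0 < j ^ 2 := by positivity
      nlinarith [sq_nonneg (2 * i + j)]
    subst hj
    refine ⟨?_, rfl⟩
    by_contra hi
    have : 0 < i ^ 2 := by positivity
    nlinarith
  exact Int.le_of_dvd h3 h2

/-- The plane has a colouring with seven colours in which points of the same colour are at
distance at most `√3 / 2` or at least `√5 / 2`. -/
theorem hex7 : ∃ c : ℝ → ℝ → Fin 7, ∀ x y x' y' : ℝ, c x y = c x' y' →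
    (x - x') ^ 2 + (y - y') ^ 2 ≤ 3 / 4 ∨ 5 / 4 ≤ (x - x') ^ 2 + (y - y') ^ 2 := by
  -- the coordinates with respect to the lattice
  have h3 : (√3 : ℝ) ^ 2 = 3 := Real.sq_sqrt (by norm_num)
  let β : ℝ → ℝ := fun y => 8 / 9 * √3 * y
  let α : ℝ → ℝ → ℝ := fun x y => 4 / 3 * x - 4 / 9 * √3 * y
  have hnorm : ∀ x y x' y' : ℝ, (x - x') ^ 2 + (y - y') ^ 2 = 9 / 16 *
      ((α x y - α x' y') ^ 2 + (α x y - α x' y') * (β y - β y') + (β y - β y') ^ 2) := by
    intro x y x' y'
    simp only [α, β]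
    linear_combination (-(1 / 3) * (y - y') ^ 2) * h3
  choose I J hIJ using exists_near
  let col : ℝ → ℝ → ZMod 7 := fun x y => (I (α x y) (β y) : ZMod 7) - 2 * (J (α x y) (β y) : ZMod 7)
  refine ⟨col, fun x y x' y' h => ?_⟩
  rw [hnorm]
  have e1 := hIJ (α x y) (β y)
  have e2 := hIJ (α x' y') (β y')
  have hdvd : (7 : ℤ) ∣ (I (α x y) (β y) - I (α x' y') (β y')) -
      2 * (J (α x y) (β y) - J (α x' y') (β y')) := by
    have h' : (((I (α x y) (β y) - I (α x' y') (β y')) -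
      2 * (J (α x y) (β y) - J (α x' y') (β y')) : ℤ) : ZMod 7) = 0 := by
      push_cast
      have h'' : col x y = col x' y' := h
      simp only [col] at h''
      linear_combination h''
    exact (ZMod.intCast_zmod_eq_zero_iff_dvd _ 7).1 h' 
  generalize α x y = a at *
  generalize β y = b at *
  generalize α x' y' = a' at *
  generalize β y' = b' at *
  by_cases h0 : (I a b - I a' b' = 0 ∧ J a b - J a' b' = 0)
  · left
    have i1 : (I a b : ℝ) = I a' b' := by
      have := h0.1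
      exact_mod_cast (sub_eq_zero.1 this)
    have i2 : (J a b : ℝ) = J a' b' := by
      have := h0.2
      exact_mod_cast (sub_eq_zero.1 this)
    rw [i1, i2] at e1
    generalize (I a' b' : ℝ) = i at *
    generalize (J a' b' : ℝ) = j at *
    nlinarith [sq_nonneg ((a - i) + (a' - i)), sq_nonneg ((b - j) + (b' - j)),
      sq_nonneg ((a - i) + (a' - i) + ((b - j) + (b' - j)))]
  · right
    have h7 := norm_ge_seven _ _ hdvd h0
    have h7' : (7 : ℝ) ≤ ((I a b : ℝ) - I a' b') ^ 2 +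
        ((I a b : ℝ) - I a' b') * ((J a b : ℝ) - J a' b') + ((J a b : ℝ) - J a' b') ^ 2 := by
      exact_mod_cast h7
    generalize (I a' b' : ℝ) = i' at *
    generalize (J a' b' : ℝ) = j' at *
    generalize (I a b : ℝ) = i at *
    generalize (J a b : ℝ) = j at *
    -- P = (a - a', b - b'), Z = (i - i', j - j'), E1 = (a - i, b - j), E2 = (a' - i', b' - j')
    have hE : ((a - i) - (a' - i')) ^ 2 + ((a - i) - (a' - i')) * ((b - j) - (b' - j')) +
        ((b - j) - (b' - j')) ^ 2 ≤ 4 / 3 := by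
      nlinarith [sq_nonneg ((a - i) + (a' - i')), sq_nonneg ((b - j) + (b' - j')),
        sq_nonneg ((a - i) + (a' - i') + ((b - j) + (b' - j')))]
    -- Q(3 P + 4 E) ≥ 0
    set p := a - a' with hp
    set q := b - b' with hq
    set z := i - i' with hz
    set w := j - j' with hw
    have hz' : (a - i) - (a' - i') = p - z := by rw [hp, hz]; ring
    have hw' : (b - j) - (b' - j') = q - w := by rw [hq, hw]; ring
    rw [hz', hw'] at hE
    nlinarith [sq_nonneg (3 * p + 4 * (p - z)), sq_nonneg (3 * q + 4 * (q - w)),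
      sq_nonneg (3 * p + 4 * (p - z) + (3 * q + 4 * (q - w)))]

end Pool.Agent.Lib_helper58.Slab
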