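import Mathlib

set_option autoImplicit false

/-!
# From a slab to the plane with a forbidden interval of distances

`P` is any type with a function `D : P → P → ℝ` (the square of a distance).  A colouring of
`P × [0, ε]^k` with `6` colours which is proper for `D x y + |u - v|² = 1` gives, if `k` is large,
a colouring of `P` with `6` colours which is proper for `D x y ∈ [1 - 2 ε², 1 - 2 ε² + ε² / 3]`.
-/

open Finset

namespace Pool.Agent.Lib_helper58.Slab

variable {k : ℕ}

/-- The fibre vector with large coordinate `l` and small coordinates `w`. -/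
noncomputable def vec (ε : ℝ) (l : Fin k) (w : Fin k → ℝ) : Fin k → ℝ :=
  fun i => if i = l then √(ε ^ 2 - ∑ j, w j ^ 2) else w i

/-- Admissible data of a fibre vector. -/
structure Good (ε : ℝ) (l : Fin k) (S : Finset (Fin k)) (w : Fin k → ℝ) : Prop where
  notMem : l ∉ S
  card_le : S.card ≤ 6
  zero : ∀ i, i ∉ S → w i = 0
  nonneg : ∀ i, 0 ≤ w i
  le : ∀ i, w i ≤ ε / 4

variable {ε : ℝ} {l : Fin k} {S : Finset (Fin k)} {w : Fin k → ℝ}

lemma Good.sum_sq (h : Good ε l S w) : ∑ j, w j ^ 2 ≤ 3 / 8 * ε ^ 2 := by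
  have h1 : ∑ j, w j ^ 2 = ∑ j ∈ S, w j ^ 2 := by
    symm
    apply Finset.sum_subset (Finset.subset_univ _)
    intro i _ hi
    rw [h.zero i hi]; simp
  rw [h1]
  have h2 : ∑ j ∈ S, w j ^ 2 ≤ ∑ _j ∈ S, (ε / 4) ^ 2 := by
    apply Finset.sum_le_sum
    intro i _
    exact pow_le_pow_left₀ (h.nonneg i) (h.le i) 2
  refine h2.trans ?_
  rw [Finset.sum_const, nsmul_eq_mul]
  have h3 : (S.card : ℝ) ≤ 6 := by exact_mod_cast h.card_le
  nlinarith [sq_nonneg (ε / 4)]

lemma Good.rad_nonneg (h : Good ε l S w) : 0 ≤ ε ^ 2 - ∑ j, w j ^ 2 := by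
  nlinarith [h.sum_sq, sq_nonneg ε]

lemma Good.rad_le (h : Good ε l S w) : ε ^ 2 - ∑ j, w j ^ 2 ≤ ε ^ 2 := by
  have : 0 ≤ ∑ j, w j ^ 2 := Finset.sum_nonneg fun i _ => sq_nonneg _
  linarith

lemma Good.sqrt_ge (h : Good ε l S w) (hε : 0 ≤ ε) : 3 / 4 * ε ≤ √(ε ^ 2 - ∑ j, w j ^ 2) := by
  apply Real.le_sqrt_of_sq_le
  nlinarith [h.sum_sq, sq_nonneg ε]

lemma Good.mem_box (h : Good ε l S w) (hε : 0 ≤ ε) (i : Fin k) :
    0 ≤ vec ε l w i ∧ vec ε l w i ≤ ε := by
  unfold vec
  split_ifs with hi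
  · refine ⟨Real.sqrt_nonneg _, ?_⟩
    rw [Real.sqrt_le_left hε]
    exact h.rad_le
  · refine ⟨h.nonneg i, (h.le i).trans (by linarith)⟩

lemma Good.sum_vec_sq (h : Good ε l S w) : ∑ i, vec ε l w i ^ 2 = ε ^ 2 := by
  have h0 : ∀ i, vec ε l w i ^ 2 = (if i = l then ε ^ 2 - ∑ j, w j ^ 2 else 0) + w i ^ 2 := by
    intro i
    unfold vec
    split_ifs with hi
    · rw [Real.sq_sqrt h.rad_nonneg, hi, h.zero l h.notMem]; simp
    · simp
  rw [Finset.sum_congr rfl fun i _ => h0 i, Finset.sum_add_distrib]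
  simp

lemma Good.vec_eq_zero (h : Good ε l S w) {i : Fin k} (h1 : i ≠ l) (h2 : i ∉ S) :
    vec ε l w i = 0 := by
  unfold vec
  rw [if_neg h1, h.zero i h2]

/-- The colour `a` is robust over `x`: it occurs on fibre vectors avoiding any `r` coordinates. -/
def Rob {P : Type*} (ε : ℝ) (c : P → (Fin k → ℝ) → Fin 6) (r : ℕ) (x : P) (a : Fin 6) : Prop :=
  ∀ O : Finset (Fin k), O.card ≤ r → ∃ l S w, Good ε l S w ∧ l ∉ O ∧ Disjoint S O ∧
    c x (vec ε l w) = a

lemma Rob.mono {P : Type*} {c : P → (Fin k → ℝ) → Fin 6} {r r' : ℕ} {x : P} {a : Fin 6}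
    (hr : r ≤ r') (h : Rob ε c r' x a) : Rob ε c r x a :=
  fun O hO => h O (hO.trans hr)

/-- Successive choice of representatives with disjoint supports. -/
lemma exists_reps {P : Type*} {c : P → (Fin k → ℝ) → Fin 6} {r : ℕ} (l0 : Fin k)
    (O : Finset (Fin k)) (X : Fin 6 → P) (U : Finset (Fin 6))
    (hU : ∀ a ∈ U, Rob ε c r (X a) a) (hr : O.card + 7 * (U.card - 1) ≤ r) :
    ∃ (L : Fin 6 → Fin k) (T : Fin 6 → Finset (Fin k)) (W : Fin 6 → Fin k → ℝ),
      (∀ a ∈ U, Good ε (L a) (T a) (W a) ∧ L a ∉ O ∧ Disjoint (T a) O ∧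
        c (X a) (vec ε (L a) (W a)) = a) ∧
      ∀ a ∈ U, ∀ b ∈ U, a ≠ b → L a ≠ L b ∧ L a ∉ T b := by
  classical
  induction U using Finset.induction_on with
  | empty => exact ⟨fun _ => l0, fun _ => ∅, fun _ _ => 0, by simp, by simp⟩
  | insert a U ha ih =>
    rw [Finset.card_insert_of_notMem ha] at hr
    obtain ⟨L, T, W, h1, h2⟩ := ih (fun b hb => hU b (Finset.mem_insert_of_mem hb)) (by omega)
    have hcard : (O ∪ U.biUnion fun b => insert (L b) (T b)).card ≤ r := by
      refine (Finset.card_union_le _ _).trans ?_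
      have : (U.biUnion fun b => insert (L b) (T b)).card ≤ U.card * 7 := by
        apply Finset.card_biUnion_le_card_mul
        intro b hb
        refine (Finset.card_insert_le _ _).trans ?_
        have := (h1 b hb).1.card_le
        omega
      omega
    obtain ⟨l, S, w, hg, hl, hS, hc⟩ := hU a (Finset.mem_insert_self a U) _ hcard
    have hlO : l ∉ O := fun h => hl (Finset.mem_union_left _ h)
    have hlU : ∀ b ∈ U, l ≠ L b ∧ l ∉ T b := by
      intro b hb
      have h3 : l ∉ insert (L b) (T b) := fun h =>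
        hl (Finset.mem_union_right _ (Finset.mem_biUnion.2 ⟨b, hb, h⟩))
      rw [Finset.mem_insert, not_or] at h3
      exact h3
    have hSO : Disjoint S O := hS.mono_right Finset.subset_union_left
    have hSU : ∀ b ∈ U, L b ∉ S := by
      intro b hb h3
      exact (Finset.disjoint_left.1 hS h3) (Finset.mem_union_right _
        (Finset.mem_biUnion.2 ⟨b, hb, Finset.mem_insert_self _ _⟩))
    refine ⟨Function.update L a l, Function.update T a S, Function.update W a w, ?_, ?_⟩
    · intro b hb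
      rcases Finset.mem_insert.1 hb with rfl | hb
      · simp only [Function.update_self]
        exact ⟨hg, hlO, hSO, hc⟩
      · have hba : b ≠ a := fun h => ha (h ▸ hb)
        simp only [Function.update_of_ne hba]
        exact h1 b hb
    · intro b hb b' hb' hne
      rcases Finset.mem_insert.1 hb with hba | hbU
      · subst hba
        have hb'2 : b' ∈ U := (Finset.mem_insert.1 hb').resolve_left (Ne.symm hne)
        simp only [Function.update_self, Function.update_of_ne (Ne.symm hne)]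
        exact hlU b' hb'2
      · have hba : b ≠ a := fun h => ha (h ▸ hbU)
        rcases Finset.mem_insert.1 hb' with hba' | hbU'
        · rw [hba']
          simp only [Function.update_self, Function.update_of_ne hba]
          exact ⟨fun h => (hlU b hbU).1 h.symm, hSU b hbU⟩
        · have hba' : b' ≠ a := fun h => ha (h ▸ hbU')
          simp only [Function.update_of_ne hba, Function.update_of_ne hba']
          exact h2 b hbU b' hbU' hne

/-- The inner product of two fibre vectors meeting in one coordinate. -/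
lemma sum_sub_sq {l' : Fin k} {S' : Finset (Fin k)} {w' : Fin k → ℝ} (h : Good ε l S w)
    (h' : Good ε l' S' w') (h1 : l' ≠ l) (h2 : l' ∉ S) (h3 : l ∈ S')
    (h4 : ∀ i ∈ S', i ≠ l → i ∉ S) :
    ∑ i, (vec ε l w i - vec ε l' w' i) ^ 2 =
      2 * ε ^ 2 - 2 * (√(ε ^ 2 - ∑ j, w j ^ 2) * w' l) := by
  have e : ∀ i, (vec ε l w i - vec ε l' w' i) ^ 2 = vec ε l w i ^ 2 + vec ε l' w' i ^ 2 -
      2 * (vec ε l w i * vec ε l' w' i) := fun i => by ring
  rw [Finset.sum_congr rfl fun i _ => e i, Finset.sum_sub_distrib, Finset.sum_add_distrib,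
    h.sum_vec_sq, h'.sum_vec_sq, ← Finset.mul_sum]
  have e2 : ∑ i, vec ε l w i * vec ε l' w' i = √(ε ^ 2 - ∑ j, w j ^ 2) * w' l := by
    rw [Finset.sum_eq_single l]
    · unfold vec
      rw [if_pos rfl, if_neg (Ne.symm h1)]
    · intro i _ hil
      by_cases hiS : i ∈ S
      · have : i ∉ S' := fun h5 => h4 i h5 hil hiS
        have hil' : i ≠ l' := fun h5 => h2 (h5 ▸ hiS)
        rw [h'.vec_eq_zero hil' this, mul_zero]
      · rw [h.vec_eq_zero hil hiS, zero_mul]
    · simp
  rw [e2]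
  ring

/-- The step of the reduction. -/
lemma exists_new_color {P : Type*} {D : P → P → ℝ} {c : P → (Fin k → ℝ) → Fin 6}
    (hε : 0 < ε)
    (hc : ∀ x y u v, (∀ i, 0 ≤ u i ∧ u i ≤ ε) → (∀ i, 0 ≤ v i ∧ v i ≤ ε) →
      D x y + ∑ i, (u i - v i) ^ 2 = 1 → c x u ≠ c y v)
    (ρ : ℕ) (hk : 6 * ρ < k) (y : P) :
    ∃ b, Rob ε c ρ y b ∧ ∀ x, 1 - 2 * ε ^ 2 ≤ D x y → D x y ≤ 1 - 2 * ε ^ 2 + ε ^ 2 / 3 →
      ¬ Rob ε c (6 * ρ + 36) x b := by
  classical
  by_contra hcon
  push Not at hcon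
  -- the blocking sets
  have hblock : ∀ b, ¬ Rob ε c ρ y b → ∃ O : Finset (Fin k), O.card ≤ ρ ∧
      ∀ l S w, Good ε l S w → l ∉ O → Disjoint S O → c y (vec ε l w) ≠ b := by
    intro b hb
    unfold Rob at hb
    push Not at hb
    exact hb
  set U : Finset (Fin 6) := Finset.univ.filter fun b => ∃ x, 1 - 2 * ε ^ 2 ≤ D x y ∧
    D x y ≤ 1 - 2 * ε ^ 2 + ε ^ 2 / 3 ∧ Rob ε c (6 * ρ + 36) x b with hU
  have hUb : ∀ b, b ∉ U → ¬ Rob ε c ρ y b := by
    intro b hb h
    obtain ⟨x, hx⟩ := hcon b h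
    exact hb (by rw [hU]; exact Finset.mem_filter.2 ⟨Finset.mem_univ _, x, hx⟩)
  choose! B hB1 hB2 using fun b (hb : b ∉ U) => hblock b (hUb b hb)
  have hX : ∀ b, ∃ x, b ∈ U → 1 - 2 * ε ^ 2 ≤ D x y ∧
    D x y ≤ 1 - 2 * ε ^ 2 + ε ^ 2 / 3 ∧ Rob ε c (6 * ρ + 36) x b := by
    intro b
    by_cases hb : b ∈ U
    · have := hb
      simp only [hU, Finset.mem_filter, Finset.mem_univ, true_and] at this
      obtain ⟨x, hx⟩ := this
      exact ⟨x, fun _ => hx⟩
    · exact ⟨y, fun h => absurd h hb⟩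
  choose X hX using hX
  set O : Finset (Fin k) := Uᶜ.biUnion B with hO
  have hOcard : O.card ≤ 6 * ρ := by
    have h1 : O.card ≤ Uᶜ.card * ρ := by
      apply Finset.card_biUnion_le_card_mul
      intro b hb
      exact hB1 b (by simpa using hb)
    have h2 : Uᶜ.card ≤ 6 := by
      have := Finset.card_le_univ (Uᶜ)
      simpa using this
    exact h1.trans (Nat.mul_le_mul_right _ h2)
  obtain ⟨l', hl'⟩ : ∃ l' : Fin k, l' ∉ O := by
    by_contra h
    push Not at h
    have : Finset.univ ⊆ O := fun x _ => h x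
    have := Finset.card_le_card this
    simp at this
    omega
  have hU6 : U.card ≤ 6 := by
    have := Finset.card_le_univ U
    simpa using this
  obtain ⟨L, T, W, h1, h2⟩ := exists_reps (ε := ε) (c := c) (r := 6 * ρ + 36) l' (insert l' O) X U
    (fun a ha => (hX a ha).2.2) (by
      have := Finset.card_insert_le l' O
      omega)
  -- the small entries of the new vector
  set ω : Fin 6 → ℝ := fun a => (2 * ε ^ 2 - (1 - D (X a) y)) / (2 * √(ε ^ 2 - ∑ j, W a j ^ 2))
    with hω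
  have hω_bd : ∀ a ∈ U, 0 ≤ ω a ∧ ω a ≤ ε / 4 := by
    intro a ha
    have hs := (h1 a ha).1.sqrt_ge hε.le
    have hpos : 0 < 2 * √(ε ^ 2 - ∑ j, W a j ^ 2) := by linarith
    have hx := hX a ha
    constructor
    · apply div_nonneg _ hpos.le
      linarith [hx.1]
    · rw [hω]
      dsimp only
      rw [div_le_iff₀ hpos]
      have := hx.2.1
      nlinarith
  set w' : Fin k → ℝ := fun i => ∑ a ∈ U, if i = L a then ω a else 0 with hw'
  have hw'L : ∀ a ∈ U, w' (L a) = ω a := by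
    intro a ha
    rw [hw']
    dsimp only
    rw [Finset.sum_eq_single a]
    · simp
    · intro b hb hba
      rw [if_neg (h2 a ha b hb (Ne.symm hba)).1]
    · intro h; exact absurd ha h
  set S' : Finset (Fin k) := U.image L with hS'
  have hLl' : ∀ a ∈ U, L a ≠ l' ∧ l' ∉ T a := by
    intro a ha
    obtain ⟨-, h4, h5, -⟩ := h1 a ha
    refine ⟨fun h => h4 (by simp [h]), fun h => ?_⟩
    exact (Finset.disjoint_left.1 h5 h) (Finset.mem_insert_self _ _)
  have hgood : Good ε l' S' w' := by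
    refine ⟨?_, ?_, ?_, ?_, ?_⟩
    · intro h
      obtain ⟨a, ha, h3⟩ := Finset.mem_image.1 h
      exact (hLl' a ha).1 h3
    · exact Finset.card_image_le.trans hU6
    · intro i hi
      apply Finset.sum_eq_zero
      intro a ha
      rw [if_neg]
      intro h
      exact hi (Finset.mem_image.2 ⟨a, ha, h.symm⟩)
    · intro i
      apply Finset.sum_nonneg
      intro a ha
      split_ifs
      · exact (hω_bd a ha).1
      · exact le_rfl
    · intro i
      by_cases hi : i ∈ S'
      · obtain ⟨a, ha, rfl⟩ := Finset.mem_image.1 hi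
        rw [hw'L a ha]
        exact (hω_bd a ha).2
      · have : w' i = 0 := by
          apply Finset.sum_eq_zero
          intro a ha
          rw [if_neg]
          intro h
          exact hi (Finset.mem_image.2 ⟨a, ha, h.symm⟩)
        rw [this]; positivity
  have hne : ∀ a ∈ U, c y (vec ε l' w') ≠ a := by
    intro a ha h
    obtain ⟨h3, h4, h5, h6⟩ := h1 a ha
    refine hc (X a) y (vec ε (L a) (W a)) (vec ε l' w') (fun i => h3.mem_box hε.le i)
      (fun i => hgood.mem_box hε.le i) ?_ (h6.trans h.symm)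
    rw [sum_sub_sq h3 hgood (Ne.symm (hLl' a ha).1) (hLl' a ha).2
      (Finset.mem_image_of_mem L ha), hw'L a ha]
    · have hs := h3.sqrt_ge hε.le
      have hpos : 0 < √(ε ^ 2 - ∑ j, W a j ^ 2) := by linarith
      rw [hω]
      dsimp only
      field_simp
      ring
    · intro i hi hia
      obtain ⟨b, hb, rfl⟩ := Finset.mem_image.1 hi
      have hba : b ≠ a := fun h => hia (by rw [h])
      exact (h2 b hb a ha hba).2
  -- the contradiction
  set b := c y (vec ε l' w') with hb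
  have hbU : b ∉ U := fun h => hne b h rfl
  refine hB2 b hbU l' S' w' hgood ?_ ?_ rfl
  · intro h
    exact hl' (Finset.mem_biUnion.2 ⟨b, by simpa using hbU, h⟩)
  · rw [Finset.disjoint_left]
    intro i hi hiB
    obtain ⟨a, ha, rfl⟩ := Finset.mem_image.1 hi
    obtain ⟨-, h4, -, -⟩ := h1 a ha
    exact h4 (Finset.mem_insert_of_mem (Finset.mem_biUnion.2 ⟨b, by simpa using hbU, hiB⟩))

/-- The levels. -/
def lev : ℕ → ℕ
  | 0 => 0
  | j + 1 => 6 * lev j + 36

lemma lev_le_succ (j : ℕ) : lev j ≤ lev (j + 1) := by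
  simp only [lev]; omega

lemma lev_mono : Monotone lev := monotone_nat_of_le_succ lev_le_succ

/-- From the slab to a forbidden interval of distances. -/
theorem reduction {P : Type*} {D : P → P → ℝ} (hD : ∀ x y, D x y = D y x)
    {c : P → (Fin k → ℝ) → Fin 6} (hε : 0 < ε)
    (hc : ∀ x y u v, (∀ i, 0 ≤ u i ∧ u i ≤ ε) → (∀ i, 0 ≤ v i ∧ v i ≤ ε) →
      D x y + ∑ i, (u i - v i) ^ 2 = 1 → c x u ≠ c y v)
    (hk : 6 * lev 6 < k) :
    ∃ f : P → Fin 6, ∀ x y, 1 - 2 * ε ^ 2 ≤ D x y → D x y ≤ 1 - 2 * ε ^ 2 + ε ^ 2 / 3 →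
      f x ≠ f y := by
  classical
  have hlev : ∀ j ≤ 6, 6 * lev j < k := by
    intro j hj
    have := lev_mono hj
    omega
  -- the sets of robust colours
  let R : ℕ → P → Finset (Fin 6) := fun j x => Finset.univ.filter fun a => Rob ε c (lev j) x a
  have hRmem : ∀ j x a, a ∈ R j x ↔ Rob ε c (lev j) x a := by
    intro j x a; simp [R]
  have hanti : ∀ x {i j}, i ≤ j → R j x ⊆ R i x := by
    intro x i j hij a ha
    rw [hRmem] at ha ⊢
    exact ha.mono (lev_mono hij)
  have hnew : ∀ j ≤ 6, ∀ y, ∃ b ∈ R j y, ∀ x, 1 - 2 * ε ^ 2 ≤ D x y →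
      D x y ≤ 1 - 2 * ε ^ 2 + ε ^ 2 / 3 → b ∉ R (j + 1) x := by
    intro j hj y
    obtain ⟨b, hb, hb'⟩ := exists_new_color hε hc (lev j) (hlev j hj) y
    refine ⟨b, (hRmem _ _ _).2 hb, fun x h1 h2 h3 => hb' x h1 h2 ?_⟩
    exact (hRmem _ _ _).1 h3
  have hstab : ∀ x, ∃ j ≤ 5, R j x = R (j + 1) x := by
    intro x
    by_contra hcon
    push Not at hcon
    have hlt : ∀ j ≤ 5, (R (j + 1) x).card < (R j x).card := by
      intro j hj
      apply Finset.card_lt_card
      exact (hanti x (Nat.le_succ j)).ssubset_of_ne (fun h => hcon j hj h.symm)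
    have h0 : (R 0 x).card ≤ 6 := by
      have := Finset.card_le_univ (R 0 x)
      simpa using this
    have h6 : 1 ≤ (R 6 x).card := by
      obtain ⟨b, hb, -⟩ := hnew 6 le_rfl x
      exact Finset.card_pos.2 ⟨b, hb⟩
    have h01 : (R 1 x).card < (R 0 x).card := hlt 0 (by norm_num)
    have h12 : (R 2 x).card < (R 1 x).card := hlt 1 (by norm_num)
    have h23 : (R 3 x).card < (R 2 x).card := hlt 2 (by norm_num)
    have h34 : (R 4 x).card < (R 3 x).card := hlt 3 (by norm_num)
    have h45 : (R 5 x).card < (R 4 x).card := hlt 4 (by norm_num)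
    have h56 : (R 6 x).card < (R 5 x).card := hlt 5 (by norm_num)
    omega
  choose J hJ5 hJ using hstab
  choose f hf1 hf2 using fun y => hnew (J y) ((hJ5 y).trans (by norm_num)) y
  -- the asymmetric form of the claim
  have key : ∀ x y, J x ≤ J y → 1 - 2 * ε ^ 2 ≤ D x y →
      D x y ≤ 1 - 2 * ε ^ 2 + ε ^ 2 / 3 → f x ≠ f y := by
    intro x y hxy h1 h2 h
    have h3 : f y ∈ R (J x + 1) y := by
      apply hanti y (show J x + 1 ≤ J y + 1 by omega)
      rw [← hJ y]
      exact hf1 y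
    rw [hD] at h1 h2
    exact hf2 x y h1 h2 (h ▸ h3)
  refine ⟨f, fun x y h1 h2 => ?_⟩
  rcases le_total (J x) (J y) with h | h
  · exact key x y h h1 h2
  · rw [hD] at h1 h2
    exact (key y x h h1 h2).symm

end Pool.Agent.Lib_helper58.Slab
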