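import Mathlib
import Pool.Agent.Lib_helper58.Slab.Reduction
import Pool.Agent.Lib_helper58.Slab.Hex

set_option autoImplicit false

/-!
# The thickened plane: glue
-/

namespace Pool.Agent.Lib_helper58.Slab

/-- The thickened plane `ℝ² × [0, ε]^k` as a subset of `ℝ^(2+k)`: the last `k` coordinates are in
`[0, ε]`. -/
def slab (k : ℕ) (ε : ℝ) : Set (EuclideanSpace ℝ (Fin (2 + k))) :=
  {p | ∀ i : Fin k, 0 ≤ p (Fin.natAdd 2 i) ∧ p (Fin.natAdd 2 i) ≤ ε}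

/-- `X` has a colouring with `m` colours in which points at distance `1` have different
colours. -/
def Colourable {n : ℕ} (X : Set (EuclideanSpace ℝ (Fin n))) (m : ℕ) : Prop :=
  ∃ φ : X → Fin m, ∀ x y : X, dist (x : EuclideanSpace ℝ (Fin n)) y = 1 → φ x ≠ φ y

/-- The square of the distance of two points of `ℝ^(2+k)`. -/
lemma dist_sq {k : ℕ} (x y : EuclideanSpace ℝ (Fin (2 + k))) :
    dist x y ^ 2 = ((x (Fin.castAdd k 0) - y (Fin.castAdd k 0)) ^ 2 +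
      (x (Fin.castAdd k 1) - y (Fin.castAdd k 1)) ^ 2) +
      ∑ i : Fin k, (x (Fin.natAdd 2 i) - y (Fin.natAdd 2 i)) ^ 2 := by
  rw [EuclideanSpace.dist_eq, Real.sq_sqrt (Finset.sum_nonneg fun _ _ => sq_nonneg _),
    Fin.sum_univ_add, Fin.sum_univ_two]
  simp only [Real.dist_eq, sq_abs]

/-- The point of `ℝ^(2+k)` with given coordinates. -/
noncomputable def pt {k : ℕ} (p : ℝ × ℝ) (u : Fin k → ℝ) : EuclideanSpace ℝ (Fin (2 + k)) :=
  WithLp.toLp 2 (Fin.append ![p.1, p.2] u)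

lemma pt_zero {k : ℕ} (p : ℝ × ℝ) (u : Fin k → ℝ) : pt p u (Fin.castAdd k 0) = p.1 := by
  simp [pt, Fin.append_left]

lemma pt_one {k : ℕ} (p : ℝ × ℝ) (u : Fin k → ℝ) : pt p u (Fin.castAdd k 1) = p.2 := by
  simp [pt, Fin.append_left]

lemma pt_natAdd {k : ℕ} (p : ℝ × ℝ) (u : Fin k → ℝ) (i : Fin k) :
    pt p u (Fin.natAdd 2 i) = u i := by
  simp [pt, Fin.append_right]

theorem colourable_seven {k : ℕ} {ε : ℝ} (hk : (k : ℝ) * ε ^ 2 < 1 / 4) :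
    Colourable (slab k ε) 7 := by
  obtain ⟨c, hc⟩ := hex7
  refine ⟨fun p => c (p.1 (Fin.castAdd k 0)) (p.1 (Fin.castAdd k 1)), ?_⟩
  intro x y hxy h
  have h1 := hc _ _ _ _ h
  have h2 := dist_sq x.1 y.1
  rw [hxy] at h2
  have h3 : ∑ i : Fin k, (x.1 (Fin.natAdd 2 i) - y.1 (Fin.natAdd 2 i)) ^ 2 ≤ k * ε ^ 2 := by
    have : ∑ i : Fin k, (x.1 (Fin.natAdd 2 i) - y.1 (Fin.natAdd 2 i)) ^ 2 ≤
        ∑ _i : Fin k, ε ^ 2 := by
      apply Finset.sum_le_sum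
      intro i _
      have hx := x.2 i
      have hy := y.2 i
      rw [← sq_abs]
      apply pow_le_pow_left₀ (abs_nonneg _)
      rw [abs_le]
      constructor <;> linarith [hx.1, hx.2, hy.1, hy.2]
    simpa using this
  have h4 : 0 ≤ ∑ i : Fin k, (x.1 (Fin.natAdd 2 i) - y.1 (Fin.natAdd 2 i)) ^ 2 :=
    Finset.sum_nonneg fun _ _ => sq_nonneg _
  rcases h1 with h1 | h1 <;> linarith

theorem not_colourable_six {k : ℕ} {ε : ℝ} (hε : 0 < ε) (hε1 : ε < 1 / 2) (hk : 6 * lev 6 < k)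
    (hI : ∀ a b : ℝ, 0 < a → a < b → ¬ ∃ f : ℝ → ℝ → Fin 6, ∀ x y x' y' : ℝ,
      a ≤ (x - x') ^ 2 + (y - y') ^ 2 → (x - x') ^ 2 + (y - y') ^ 2 ≤ b → f x y ≠ f x' y')
    {m : ℕ} (hm : m ≤ 6) : ¬ Colourable (slab k ε) m := by
  classical
  rintro ⟨φ, hφ⟩
  let c : ℝ × ℝ → (Fin k → ℝ) → Fin 6 := fun p u =>
    if h : pt p u ∈ slab k ε then Fin.castLE hm (φ ⟨pt p u, h⟩) else 0
  let D : ℝ × ℝ → ℝ × ℝ → ℝ := fun p q => (p.1 - q.1) ^ 2 + (p.2 - q.2) ^ 2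
  have hD : ∀ p q, D p q = D q p := fun p q => by simp only [D]; ring
  have hc : ∀ x y u v, (∀ i, 0 ≤ u i ∧ u i ≤ ε) → (∀ i, 0 ≤ v i ∧ v i ≤ ε) →
      D x y + ∑ i, (u i - v i) ^ 2 = 1 → c x u ≠ c y v := by
    intro x y u v hu hv h
    have h1 : pt x u ∈ slab k ε := fun i => by rw [pt_natAdd]; exact hu i
    have h2 : pt y v ∈ slab k ε := fun i => by rw [pt_natAdd]; exact hv i
    have h3 := dist_sq (pt x u) (pt y v)
    simp only [pt_zero, pt_one, pt_natAdd] at h3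
    have h4 : dist (pt x u) (pt y v) = 1 := by
      have h5 : dist (pt x u) (pt y v) ^ 2 = 1 := by rw [h3]; exact h
      have h6 : (0 : ℝ) ≤ dist (pt x u) (pt y v) := dist_nonneg
      nlinarith
    have h5 := hφ ⟨pt x u, h1⟩ ⟨pt y v, h2⟩ h4
    simp only [c, dif_pos h1, dif_pos h2]
    intro h6
    exact h5 (Fin.castLE_injective hm h6)
  obtain ⟨f, hf⟩ := reduction hD hε hc hk
  refine hI (1 - 2 * ε ^ 2) (1 - 2 * ε ^ 2 + ε ^ 2 / 3) (by nlinarith) ?_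
    ⟨fun x y => f (x, y), fun x y x' y' h1 h2 => hf (x, y) (x', y') h1 h2⟩
  have : 0 < ε ^ 2 := by positivity
  linarith

/-- The result about the thickened plane, from the interval theorem. -/
theorem main (hI : ∀ a b : ℝ, 0 < a → a < b → ¬ ∃ f : ℝ → ℝ → Fin 6, ∀ x y x' y' : ℝ,
      a ≤ (x - x') ^ 2 + (y - y') ^ 2 → (x - x') ^ 2 + (y - y') ^ 2 ≤ b → f x y ≠ f x' y') :
    ∃ k : ℕ, 1 ≤ k ∧ ∃ ε₀ : ℝ, 0 < ε₀ ∧ ∀ ε : ℝ, 0 < ε → ε < ε₀ →
      IsLeast {m : ℕ | 0 < m ∧ Colourable (slab k ε) m} 7 := by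
  refine ⟨6 * lev 6 + 1, by omega, 1 / (2 * (6 * lev 6 + 1 : ℕ)), by positivity, ?_⟩
  intro ε hε hε1
  set k : ℕ := 6 * lev 6 + 1 with hk
  have hk1 : (1 : ℝ) ≤ k := by
    have : 1 ≤ k := by omega
    exact_mod_cast this
  rw [lt_div_iff₀ (by positivity)] at hε1
  have h1 : (k : ℝ) * ε ^ 2 < 1 / 4 := by nlinarith
  have h2 : ε < 1 / 2 := by nlinarith
  refine ⟨⟨by norm_num, colourable_seven h1⟩, ?_⟩
  rintro m ⟨-, hm⟩
  by_contra hcon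
  push Not at hcon
  exact not_colourable_six hε h2 (by omega) hI (by omega) hm

end Pool.Agent.Lib_helper58.Slab
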